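import Pool.Agent.Helper55.SCH.Goals

set_option autoImplicit false

/-!
# SCH-POH2 (MP_c13f7d_co): dilation identity for the critical points, `u = 2 c`
-/

namespace Pool.Agent.Helper4.SCH

open Finset Pool.Agent.Helper55.SCH

theorem S_succ (s : ℕ → ℝ) (k : ℕ) : S s (k + 1) = S s k + s (k + 1) := by
  unfold S
  exact Finset.sum_Icc_succ_top (by omega) _

theorem S_zero (s : ℕ → ℝ) : S s 0 = 0 := by
  unfold S
  simp

theorem refl_Icc (c : ℕ) (f : ℕ → ℝ) :
    ∑ x ∈ Icc 1 c, f (c + 1 - x) = ∑ x ∈ Icc 1 c, f x := by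
  refine Finset.sum_nbij' (fun x => c + 1 - x) (fun x => c + 1 - x) ?_ ?_ ?_ ?_ ?_
  · intro x hx
    simp only [mem_Icc] at *
    omega
  · intro x hx
    simp only [mem_Icc] at *
    omega
  · intro x hx
    simp only [mem_Icc] at *
    omega
  · intro x hx
    simp only [mem_Icc] at *
    omega
  · intro x hx
    rfl

theorem refl_Ico (c : ℕ) (f : ℕ → ℝ) :
    ∑ x ∈ Ico 1 c, f (c - x) = ∑ x ∈ Ico 1 c, f x := by
  refine Finset.sum_nbij' (fun x => c - x) (fun x => c - x) ?_ ?_ ?_ ?_ ?_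
  · intro x hx
    simp only [mem_Ico] at *
    omega
  · intro x hx
    simp only [mem_Ico] at *
    omega
  · intro x hx
    simp only [mem_Ico] at *
    omega
  · intro x hx
    simp only [mem_Ico] at *
    omega
  · intro x hx
    rfl

theorem abel1 (h : ℕ → ℝ) (c : ℕ) :
    ∑ x ∈ Icc 1 c, h x = c * h c - ∑ x ∈ Icc 1 c, ((x : ℝ) - 1) * (h x - h (x - 1)) := by
  induction c with
  | zero => simp
  | succ n ih =>
    rw [Finset.sum_Icc_succ_top (by omega), Finset.sum_Icc_succ_top (by omega), ih]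
    rw [Nat.add_sub_cancel]
    push_cast
    ring

theorem abel2 (h : ℕ → ℝ) (c : ℕ) (hc : 1 ≤ c) :
    ∑ x ∈ Icc 1 c, h x = c * h c - ∑ x ∈ Ico 1 c, (x : ℝ) * (h (x + 1) - h x) := by
  induction c, hc using Nat.le_induction with
  | base => simp
  | succ n hn ih =>
    rw [Finset.sum_Icc_succ_top (by omega), Finset.sum_Ico_succ_top hn, ih]
    push_cast
    ring

theorem tel1 (h : ℕ → ℝ) (c : ℕ) :
    ∑ x ∈ Icc 1 c, (h x - h (x - 1)) = h c - h 0 := by
  induction c with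
  | zero => simp
  | succ n ih =>
    rw [Finset.sum_Icc_succ_top (by omega), ih]
    simp only [Nat.add_sub_cancel]
    ring

theorem tel2 (h : ℕ → ℝ) (c : ℕ) (hc : 1 ≤ c) :
    ∑ x ∈ Ico 1 c, (h (x + 1) - h x) = h c - h 1 := by
  induction c, hc using Nat.le_induction with
  | base => simp
  | succ n hn ih =>
    rw [Finset.sum_Ico_succ_top hn, ih]
    ring

theorem g2_diff (c : ℕ) (s a b : ℕ → ℝ) (x : ℕ) (hx : x ∈ Icc 1 c) :
    g2 c s a b (x - 1) - g2 c s a b x = s (c + 1 - x) + a x + b x := by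
  rw [mem_Icc] at hx
  obtain ⟨y, rfl⟩ : ∃ y, x = y + 1 := ⟨x - 1, by omega⟩
  have e1 : c - y = (c - (y + 1)) + 1 := by omega
  have e2 : c + 1 - (y + 1) = (c - (y + 1)) + 1 := by omega
  unfold g2
  rw [Nat.add_sub_cancel, e1, e2, S_succ s, S_succ a, S_succ b]
  ring

theorem w2_diff (c : ℕ) (s a b : ℕ → ℝ) (v : ℕ) (hv : v ∈ Ico 1 c) :
    w2 c s a b (v + 1) - w2 c s a b v = s v + b (c - v) := by
  rw [mem_Ico] at hv
  obtain ⟨y, rfl⟩ : ∃ y, v = y + 1 := ⟨v - 1, by omega⟩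
  have e1 : c - (y + 1) = (c - (y + 1 + 1)) + 1 := by omega
  unfold w2
  rw [Nat.add_sub_cancel, Nat.add_sub_cancel, e1, S_succ s, S_succ b]
  ring

/-- Sum of `H (w v)`, and the sum of the differences. -/
theorem wpart (lam : ℝ) (hl : 1 ≤ lam) (H P : ℝ → ℝ)
    (hconv : ∀ x y, 0 ≤ H y - H x - P x * (y - x) ∧
      H y - H x - P x * (y - x) ≤ (y - x) ^ 2 / (2 * lam))
    (c : ℕ) (hc : 1 ≤ c) (s a b : ℕ → ℝ) (hs1 : ∀ x, |s x| ≤ 1) (hb1 : ∀ x, |b x| ≤ 1)
    (ha : ∀ v ∈ Icc 1 c, a v = - P (w2 c s a b v)) :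
    (∑ v ∈ Icc 1 c, H (w2 c s a b v) ≤ c * H (w2 c s a b c)
      + ∑ v ∈ Ico 1 c, (v : ℝ) * (a v * s v) + ∑ v ∈ Ico 1 c, (v : ℝ) * (a v * b (c - v))) ∧
    (H (w2 c s a b c) - H (w2 c s a b 1) ≤
      - ∑ v ∈ Ico 1 c, a v * s v - ∑ v ∈ Ico 1 c, a v * b (c - v) + 2 * c / lam) ∧
    (- ∑ v ∈ Ico 1 c, a v * s v - ∑ v ∈ Ico 1 c, a v * b (c - v) ≤
      H (w2 c s a b c) - H (w2 c s a b 1)) := by
  have hlam : 0 < lam := by linarith
  have key : ∀ v ∈ Ico 1 c,
      - (a v * s v) - a v * b (c - v) ≤ H (w2 c s a b (v + 1)) - H (w2 c s a b v) ∧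
      H (w2 c s a b (v + 1)) - H (w2 c s a b v) ≤ - (a v * s v) - a v * b (c - v) + 2 / lam := by
    intro v hv
    have hv' : v ∈ Icc 1 c := by
      rw [mem_Ico] at hv
      rw [mem_Icc]
      omega
    obtain ⟨h1, h2⟩ := hconv (w2 c s a b v) (w2 c s a b (v + 1))
    rw [w2_diff c s a b v hv] at h1 h2
    have hP : P (w2 c s a b v) = - a v := by
      rw [ha v hv']
      ring
    rw [hP] at h1 h2
    have hsv := abs_le.mp (hs1 v)
    have hbv := abs_le.mp (hb1 (c - v))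
    have hsq : (s v + b (c - v)) ^ 2 / (2 * lam) ≤ 2 / lam := by
      rw [div_le_div_iff₀ (by positivity) hlam]
      have : (s v + b (c - v)) ^ 2 ≤ 4 := by nlinarith
      nlinarith
    constructor
    · nlinarith
    · nlinarith
  refine ⟨?_, ?_, ?_⟩
  · rw [abel2 (fun v => H (w2 c s a b v)) c hc]
    have h3 : ∑ v ∈ Ico 1 c, (v : ℝ) * (- (a v * s v) - a v * b (c - v)) ≤
        ∑ v ∈ Ico 1 c, (v : ℝ) * (H (w2 c s a b (v + 1)) - H (w2 c s a b v)) := by
      apply Finset.sum_le_sum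
      intro v hv
      exact mul_le_mul_of_nonneg_left (key v hv).1 (Nat.cast_nonneg v)
    have h4 : ∑ v ∈ Ico 1 c, (v : ℝ) * (- (a v * s v) - a v * b (c - v)) =
        - ∑ v ∈ Ico 1 c, (v : ℝ) * (a v * s v) - ∑ v ∈ Ico 1 c, (v : ℝ) * (a v * b (c - v)) := by
      rw [← Finset.sum_neg_distrib, ← Finset.sum_sub_distrib]
      apply Finset.sum_congr rfl
      intro v _
      ring
    linarith
  · rw [← tel2 (fun v => H (w2 c s a b v)) c hc]
    have h3 : ∑ v ∈ Ico 1 c, (H (w2 c s a b (v + 1)) - H (w2 c s a b v)) ≤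
        ∑ v ∈ Ico 1 c, (- (a v * s v) - a v * b (c - v) + 2 / lam) :=
      Finset.sum_le_sum (fun v hv => (key v hv).2)
    have h4 : ∑ v ∈ Ico 1 c, (- (a v * s v) - a v * b (c - v) + 2 / lam) =
        - ∑ v ∈ Ico 1 c, a v * s v - ∑ v ∈ Ico 1 c, a v * b (c - v)
          + ∑ v ∈ Ico 1 c, (2 / lam) := by
      rw [← Finset.sum_neg_distrib, ← Finset.sum_sub_distrib, ← Finset.sum_add_distrib]
    have h5 : ∑ v ∈ Ico 1 c, (2 / lam) ≤ 2 * c / lam := by
      rw [Finset.sum_const, Nat.card_Ico, nsmul_eq_mul]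
      have : ((c - 1 : ℕ) : ℝ) ≤ c := by
        exact_mod_cast Nat.sub_le c 1
      have h6 : 0 ≤ 2 / lam := by positivity
      calc ((c - 1 : ℕ) : ℝ) * (2 / lam) ≤ c * (2 / lam) := mul_le_mul_of_nonneg_right this h6
        _ = 2 * c / lam := by ring
    linarith
  · rw [← tel2 (fun v => H (w2 c s a b v)) c hc]
    have h3 : ∑ v ∈ Ico 1 c, (- (a v * s v) - a v * b (c - v)) ≤
        ∑ v ∈ Ico 1 c, (H (w2 c s a b (v + 1)) - H (w2 c s a b v)) :=
      Finset.sum_le_sum (fun v hv => (key v hv).1)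
    have h4 : ∑ v ∈ Ico 1 c, (- (a v * s v) - a v * b (c - v)) =
        - ∑ v ∈ Ico 1 c, a v * s v - ∑ v ∈ Ico 1 c, a v * b (c - v) := by
      rw [← Finset.sum_neg_distrib, ← Finset.sum_sub_distrib]
    linarith

/-- The same for `g`. -/
theorem gpart (lam : ℝ) (hl : 1 ≤ lam) (H P : ℝ → ℝ)
    (hconv : ∀ x y, 0 ≤ H y - H x - P x * (y - x) ∧
      H y - H x - P x * (y - x) ≤ (y - x) ^ 2 / (2 * lam))
    (c : ℕ) (s a b : ℕ → ℝ) (hs1 : ∀ x, |s x| ≤ 1) (ha1 : ∀ x, |a x| ≤ 1)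
    (hb1 : ∀ x, |b x| ≤ 1)
    (hs : ∀ v ∈ Icc 1 c, s v = - P (g2 c s a b v)) :
    (∑ x ∈ Icc 1 c, H (g2 c s a b x) ≤ c * H (g2 c s a b c)
      - (c - 1 : ℝ) / 2 * ∑ x ∈ Icc 1 c, s x * s (c + 1 - x)
      - ∑ x ∈ Icc 1 c, ((x : ℝ) - 1) * (s x * (a x + b x)) + 5 * (c : ℝ) ^ 2 / lam) ∧
    (H (g2 c s a b c) - H (g2 c s a b 0) ≤
      ∑ x ∈ Icc 1 c, s x * s (c + 1 - x) + ∑ x ∈ Icc 1 c, s x * (a x + b x)) := by
  have hlam : 0 < lam := by linarith
  have key : ∀ x ∈ Icc 1 c,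
      s x * s (c + 1 - x) + s x * (a x + b x) - 5 / lam ≤
        H (g2 c s a b x) - H (g2 c s a b (x - 1)) ∧
      H (g2 c s a b x) - H (g2 c s a b (x - 1)) ≤
        s x * s (c + 1 - x) + s x * (a x + b x) := by
    intro x hx
    obtain ⟨h1, h2⟩ := hconv (g2 c s a b x) (g2 c s a b (x - 1))
    rw [g2_diff c s a b x hx] at h1 h2
    have hP : P (g2 c s a b x) = - s x := by
      have := hs x hx
      linarith
    rw [hP] at h1 h2
    have hsv := abs_le.mp (hs1 (c + 1 - x))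
    have hav := abs_le.mp (ha1 x)
    have hbv := abs_le.mp (hb1 x)
    have hsq : (s (c + 1 - x) + a x + b x) ^ 2 / (2 * lam) ≤ 5 / lam := by
      rw [div_le_div_iff₀ (by positivity) hlam]
      have : (s (c + 1 - x) + a x + b x) ^ 2 ≤ 9 := by
        have e1 : s (c + 1 - x) + a x + b x ≤ 3 := by linarith
        have e2 : -3 ≤ s (c + 1 - x) + a x + b x := by linarith
        nlinarith
      nlinarith
    constructor
    · nlinarith
    · nlinarith
  have hrefl : ∑ x ∈ Icc 1 c, ((x : ℝ) - 1) * (s x * s (c + 1 - x)) =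
      (c - 1 : ℝ) / 2 * ∑ x ∈ Icc 1 c, s x * s (c + 1 - x) := by
    have h1 := refl_Icc c (fun x => ((x : ℝ) - 1) * (s x * s (c + 1 - x)))
    have h2 : ∑ x ∈ Icc 1 c, (((c + 1 - x : ℕ) : ℝ) - 1) *
        (s (c + 1 - x) * s (c + 1 - (c + 1 - x))) =
        ∑ x ∈ Icc 1 c, ((c : ℝ) - x) * (s x * s (c + 1 - x)) := by
      apply Finset.sum_congr rfl
      intro x hx
      rw [mem_Icc] at hx
      have e1 : c + 1 - (c + 1 - x) = x := by omega
      rw [e1, Nat.cast_sub (by omega)]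
      push_cast
      ring
    rw [h2] at h1
    have h3 : ∑ x ∈ Icc 1 c, ((x : ℝ) - 1) * (s x * s (c + 1 - x)) +
        ∑ x ∈ Icc 1 c, ((c : ℝ) - x) * (s x * s (c + 1 - x)) =
        (c - 1 : ℝ) * ∑ x ∈ Icc 1 c, s x * s (c + 1 - x) := by
      rw [← Finset.sum_add_distrib, Finset.mul_sum]
      apply Finset.sum_congr rfl
      intro x _
      ring
    linarith
  refine ⟨?_, ?_⟩
  · rw [abel1 (fun v => H (g2 c s a b v)) c, ← hrefl]
    have h3 : ∑ x ∈ Icc 1 c, ((x : ℝ) - 1) *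
          (s x * s (c + 1 - x) + s x * (a x + b x) - 5 / lam) ≤
        ∑ x ∈ Icc 1 c, ((x : ℝ) - 1) * (H (g2 c s a b x) - H (g2 c s a b (x - 1))) := by
      apply Finset.sum_le_sum
      intro x hx
      have hx1 : (1 : ℝ) ≤ x := by
        rw [mem_Icc] at hx
        exact_mod_cast hx.1
      exact mul_le_mul_of_nonneg_left (key x hx).1 (by linarith)
    have h4 : ∑ x ∈ Icc 1 c, ((x : ℝ) - 1) *
          (s x * s (c + 1 - x) + s x * (a x + b x) - 5 / lam) =
        ∑ x ∈ Icc 1 c, ((x : ℝ) - 1) * (s x * s (c + 1 - x))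
          + ∑ x ∈ Icc 1 c, ((x : ℝ) - 1) * (s x * (a x + b x))
          - ∑ x ∈ Icc 1 c, ((x : ℝ) - 1) * (5 / lam) := by
      rw [← Finset.sum_add_distrib, ← Finset.sum_sub_distrib]
      apply Finset.sum_congr rfl
      intro v _
      ring
    have h5 : ∑ x ∈ Icc 1 c, ((x : ℝ) - 1) * (5 / lam) ≤ 5 * (c : ℝ) ^ 2 / lam := by
      have h6 : ∑ x ∈ Icc 1 c, ((x : ℝ) - 1) * (5 / lam) ≤
          ∑ x ∈ Icc 1 c, (c : ℝ) * (5 / lam) := by
        apply Finset.sum_le_sum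
        intro x hx
        rw [mem_Icc] at hx
        have : (x : ℝ) ≤ c := by exact_mod_cast hx.2
        apply mul_le_mul_of_nonneg_right _ (by positivity)
        linarith
      rw [Finset.sum_const, Nat.card_Icc, nsmul_eq_mul, Nat.add_sub_cancel] at h6
      calc _ ≤ (c : ℝ) * ((c : ℝ) * (5 / lam)) := h6
        _ = 5 * (c : ℝ) ^ 2 / lam := by ring
    linarith
  · rw [← tel1 (fun v => H (g2 c s a b v)) c]
    have h3 : ∑ x ∈ Icc 1 c, (H (g2 c s a b x) - H (g2 c s a b (x - 1))) ≤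
        ∑ x ∈ Icc 1 c, (s x * s (c + 1 - x) + s x * (a x + b x)) :=
      Finset.sum_le_sum (fun x hx => (key x hx).2)
    rw [Finset.sum_add_distrib] at h3
    exact h3

theorem goalPOH2 : G_POH2 := by
  intro hHub c lam s a b hC hc
  have hl := hC.lam1
  have hlam : 0 < lam := by linarith
  obtain ⟨hP1, -, -, hconv, hH, hPt, -, -⟩ := hHub lam hlam
  have hcR : (1 : ℝ) ≤ c := by exact_mod_cast hc
  have hs1 : ∀ x, |s x| ≤ 1 := by
    intro x
    by_cases hx : x ∈ Icc 1 c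
    · rw [hC.hs x hx, abs_neg]
      exact hP1 _
    · rw [hC.s0 x hx]
      simp
  have ha1 : ∀ x, |a x| ≤ 1 := by
    intro x
    by_cases hx : x ∈ Icc 1 c
    · rw [hC.ha x hx, abs_neg]
      exact hP1 _
    · rw [hC.a0 x hx]
      simp
  have hb1 : ∀ x, |b x| ≤ 1 := by
    intro x
    by_cases hx : x ∈ Icc 1 c
    · rw [hC.hb x hx, abs_neg]
      exact hP1 _
    · rw [hC.b0 x hx]
      simp
  obtain ⟨g1', g2'⟩ := gpart lam hl (Hub lam) (Phi lam) (fun x y => hconv x y) c s a b hs1 ha1 hb1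
    hC.hs
  obtain ⟨wa1, wa2, wa3⟩ := wpart lam hl (Hub lam) (Phi lam) (fun x y => hconv x y) c hc s a b
    hs1 hb1 hC.ha
  obtain ⟨wb1, wb2, wb3⟩ := wpart lam hl (Hub lam) (Phi lam) (fun x y => hconv x y) c hc s b a
    hs1 ha1 hC.hb
  -- the three sums of products
  have hsg : - ∑ x ∈ Icc 1 c, Hub lam (g2 c s a b x) - c * (lam / 2) ≤
      ∑ x ∈ Icc 1 c, s x * g2 c s a b x := by
    have h1 : ∑ x ∈ Icc 1 c, (- Hub lam (g2 c s a b x) - lam / 2) ≤
        ∑ x ∈ Icc 1 c, s x * g2 c s a b x := by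
      apply Finset.sum_le_sum
      intro x hx
      have := hPt (g2 c s a b x)
      have h2 := hC.hs x hx
      rw [h2]
      linarith
    rw [Finset.sum_sub_distrib, Finset.sum_neg_distrib, Finset.sum_const, Nat.card_Icc,
      nsmul_eq_mul, Nat.add_sub_cancel] at h1
    exact h1
  have haw : - ∑ x ∈ Icc 1 c, Hub lam (w2 c s a b x) - c * (lam / 2) ≤
      ∑ x ∈ Icc 1 c, a x * w2 c s a b x := by
    have h1 : ∑ x ∈ Icc 1 c, (- Hub lam (w2 c s a b x) - lam / 2) ≤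
        ∑ x ∈ Icc 1 c, a x * w2 c s a b x := by
      apply Finset.sum_le_sum
      intro x hx
      have := hPt (w2 c s a b x)
      have h2 := hC.ha x hx
      rw [h2]
      linarith
    rw [Finset.sum_sub_distrib, Finset.sum_neg_distrib, Finset.sum_const, Nat.card_Icc,
      nsmul_eq_mul, Nat.add_sub_cancel] at h1
    exact h1
  have hbw : - ∑ x ∈ Icc 1 c, Hub lam (w2 c s b a x) - c * (lam / 2) ≤
      ∑ x ∈ Icc 1 c, b x * w2 c s b a x := by
    have h1 : ∑ x ∈ Icc 1 c, (- Hub lam (w2 c s b a x) - lam / 2) ≤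
        ∑ x ∈ Icc 1 c, b x * w2 c s b a x := by
      apply Finset.sum_le_sum
      intro x hx
      have := hPt (w2 c s b a x)
      have h2 := hC.hb x hx
      rw [h2]
      linarith
    rw [Finset.sum_sub_distrib, Finset.sum_neg_distrib, Finset.sum_const, Nat.card_Icc,
      nsmul_eq_mul, Nat.add_sub_cancel] at h1
    exact h1
  -- the correlations
  have hcorr1 : ∑ v ∈ Ico 1 c, b v * a (c - v) = ∑ v ∈ Ico 1 c, a v * b (c - v) := by
    have h1 := refl_Ico c (fun v => b v * a (c - v))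
    rw [← h1]
    apply Finset.sum_congr rfl
    intro v hv
    rw [mem_Ico] at hv
    have e1 : c - (c - v) = v := by omega
    rw [e1]
    ring
  have hcorr2 : ∑ v ∈ Ico 1 c, (v : ℝ) * (a v * b (c - v)) +
      ∑ v ∈ Ico 1 c, (v : ℝ) * (b v * a (c - v)) = c * ∑ v ∈ Ico 1 c, a v * b (c - v) := by
    have h1 := refl_Ico c (fun v => (v : ℝ) * (b v * a (c - v)))
    rw [← h1, ← Finset.sum_add_distrib, Finset.mul_sum]
    apply Finset.sum_congr rfl
    intro v hv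
    rw [mem_Ico] at hv
    have e1 : c - (c - v) = v := by omega
    rw [e1, Nat.cast_sub (by omega)]
    ring
  -- the mixed sums
  have hY : ∑ x ∈ Icc 1 c, s x * (a x + b x) =
      ∑ v ∈ Ico 1 c, a v * s v + ∑ v ∈ Ico 1 c, b v * s v + s c * (a c + b c) := by
    obtain ⟨k, rfl⟩ : ∃ k, c = k + 1 := ⟨c - 1, by omega⟩
    rw [Finset.sum_Icc_succ_top (by omega), ← Finset.sum_add_distrib]
    have e : Icc 1 k = Ico 1 (k + 1) := by
      ext x
      simp only [mem_Icc, mem_Ico]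
      omega
    rw [e]
    congr 1
    apply Finset.sum_congr rfl
    intro x _
    ring
  have hYw : ∑ x ∈ Icc 1 c, ((x : ℝ) - 1) * (s x * (a x + b x)) =
      ∑ v ∈ Ico 1 c, (v : ℝ) * (a v * s v) + ∑ v ∈ Ico 1 c, (v : ℝ) * (b v * s v)
        + c * (s c * (a c + b c)) - ∑ x ∈ Icc 1 c, s x * (a x + b x) := by
    have h0 : ∑ x ∈ Icc 1 c, ((x : ℝ) - 1) * (s x * (a x + b x)) =
        ∑ x ∈ Icc 1 c, (x : ℝ) * (s x * (a x + b x)) - ∑ x ∈ Icc 1 c, s x * (a x + b x) := by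
      rw [← Finset.sum_sub_distrib]
      apply Finset.sum_congr rfl
      intro x _
      ring
    rw [h0]
    congr 1
    obtain ⟨k, rfl⟩ : ∃ k, c = k + 1 := ⟨c - 1, by omega⟩
    rw [Finset.sum_Icc_succ_top (by omega), ← Finset.sum_add_distrib]
    have e : Icc 1 k = Ico 1 (k + 1) := by
      ext x
      simp only [mem_Icc, mem_Ico]
      omega
    rw [e]
    congr 1
    apply Finset.sum_congr rfl
    intro x _
    ring
  -- bounds of the small terms
  have hYb : ∑ x ∈ Icc 1 c, s x * (a x + b x) ≤ 2 * c := by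
    have h1 : ∑ x ∈ Icc 1 c, s x * (a x + b x) ≤ ∑ x ∈ Icc 1 c, (2 : ℝ) := by
      apply Finset.sum_le_sum
      intro x _
      have h2 : |s x * (a x + b x)| ≤ 1 * 2 := by
        rw [abs_mul]
        apply mul_le_mul (hs1 x) _ (abs_nonneg _) (by norm_num)
        calc |a x + b x| ≤ |a x| + |b x| := abs_add_le _ _
          _ ≤ 1 + 1 := add_le_add (ha1 x) (hb1 x)
          _ = 2 := by norm_num
      have := (abs_le.mp h2).2
      linarith
    rw [Finset.sum_const, Nat.card_Icc, nsmul_eq_mul, Nat.add_sub_cancel] at h1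
    linarith
  have hSSb : ∑ x ∈ Icc 1 c, s x * s (c + 1 - x) ≤ c := by
    have h1 : ∑ x ∈ Icc 1 c, s x * s (c + 1 - x) ≤ ∑ x ∈ Icc 1 c, (1 : ℝ) := by
      apply Finset.sum_le_sum
      intro x _
      have h2 : |s x * s (c + 1 - x)| ≤ 1 * 1 := by
        rw [abs_mul]
        exact mul_le_mul (hs1 x) (hs1 _) (abs_nonneg _) (by norm_num)
      have := (abs_le.mp h2).2
      linarith
    rw [Finset.sum_const, Nat.card_Icc, nsmul_eq_mul, Nat.add_sub_cancel] at h1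
    linarith
  have hscb : |s c * (a c + b c)| ≤ 2 := by
    have h2 : |s c * (a c + b c)| ≤ 1 * 2 := by
      rw [abs_mul]
      apply mul_le_mul (hs1 c) _ (abs_nonneg _) (by norm_num)
      calc |a c + b c| ≤ |a c| + |b c| := abs_add_le _ _
        _ ≤ 1 + 1 := add_le_add (ha1 c) (hb1 c)
        _ = 2 := by norm_num
    linarith
  have hscb' := abs_le.mp hscb
  -- values
  have hgc : g2 c s a b c = S s c + S a c + S b c := by
    unfold g2
    rw [Nat.sub_self, S_zero]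
    ring
  have hg0 : g2 c s a b 0 = 2 * (S s c + S a c + S b c) := by
    unfold g2
    rw [Nat.sub_zero, S_zero, S_zero]
    ring
  have hwc : ∀ a' b' : ℕ → ℝ, w2 c s a' b' c = 2 * S s c + S a' c + S b' c - s c := by
    intro a' b'
    unfold w2
    rw [Nat.sub_self, S_zero]
    obtain ⟨k, rfl⟩ : ∃ k, c = k + 1 := ⟨c - 1, by omega⟩
    rw [Nat.add_sub_cancel, S_succ s]
    ring
  have hw1 : ∀ a' b' : ℕ → ℝ, w2 c s a' b' 1 = S s c + S a' c + b' c := by
    intro a' b'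
    unfold w2
    rw [Nat.sub_self, S_zero]
    obtain ⟨k, rfl⟩ : ∃ k, c = k + 1 := ⟨c - 1, by omega⟩
    rw [Nat.add_sub_cancel, S_succ b']
    ring
  have vgc : Hub lam (g2 c s a b c) ≤ |S s c + S a c + S b c| := by
    rw [← hgc]
    exact (hH _).2
  have vg0 : Hub lam (g2 c s a b 0) ≤ 2 * |S s c + S a c + S b c| := by
    have h1 := (hH (g2 c s a b 0)).2
    rw [hg0, abs_mul, abs_two] at h1
    rw [hg0]
    exact h1
  have vwc : Hub lam (w2 c s a b c) ≤ |2 * S s c + S a c + S b c| + 1 := by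
    have h1 := (hH (w2 c s a b c)).2
    have h2 : |w2 c s a b c| ≤ |2 * S s c + S a c + S b c| + |s c| := by
      rw [hwc]
      exact abs_sub _ _
    have h3 := hs1 c
    linarith
  have vwc' : Hub lam (w2 c s b a c) ≤ |2 * S s c + S a c + S b c| + 1 := by
    have h1 := (hH (w2 c s b a c)).2
    have h2 : |w2 c s b a c| ≤ |2 * S s c + S a c + S b c| + |s c| := by
      rw [hwc]
      have e : 2 * S s c + S b c + S a c - s c = (2 * S s c + S a c + S b c) - s c := by ring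
      rw [e]
      exact abs_sub _ _
    have h3 := hs1 c
    linarith
  have vw1 : Hub lam (w2 c s a b 1) ≤ |S s c + S a c| + 1 := by
    have h1 := (hH (w2 c s a b 1)).2
    have h2 : |w2 c s a b 1| ≤ |S s c + S a c| + |b c| := by
      rw [hw1]
      exact abs_add_le _ _
    have h3 := hb1 c
    linarith
  have vw1' : Hub lam (w2 c s b a 1) ≤ |S s c + S b c| + 1 := by
    have h1 := (hH (w2 c s b a 1)).2
    have h2 : |w2 c s b a 1| ≤ |S s c + S b c| + |a c| := by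
      rw [hw1]
      exact abs_add_le _ _
    have h3 := ha1 c
    linarith
  -- abbreviations
  set SS := ∑ x ∈ Icc 1 c, s x * s (c + 1 - x) with hSS
  set Y := ∑ x ∈ Icc 1 c, s x * (a x + b x) with hYdef
  set X := ∑ v ∈ Ico 1 c, a v * b (c - v) with hX
  set Hgc := Hub lam (g2 c s a b c)
  set Hg0 := Hub lam (g2 c s a b 0)
  set Hwc := Hub lam (w2 c s a b c)
  set Hwc' := Hub lam (w2 c s b a c)
  set Hw1 := Hub lam (w2 c s a b 1)
  set Hw1' := Hub lam (w2 c s b a 1)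
  have hsmall : 0 ≤ 2 * (c : ℝ) / lam := by positivity
  -- X from (ii)
  have hX1 : 2 * X ≤ - Y + s c * (a c + b c) - (Hwc - Hw1) - (Hwc' - Hw1') + 4 * c / lam := by
    have e : 4 * (c : ℝ) / lam = 2 * c / lam + 2 * c / lam := by ring
    rw [e]
    linarith
  have hSS1 : Hgc - Hg0 - Y ≤ SS := by linarith
  have hX2 : (c : ℝ) * X ≤ c / 2 * (- Y + s c * (a c + b c) - (Hwc - Hw1) - (Hwc' - Hw1')
      + 4 * c / lam) := by
    have := mul_le_mul_of_nonneg_left hX1 (by positivity : (0 : ℝ) ≤ c / 2)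
    linarith
  have hSS2 : (c : ℝ) / 2 * (Hgc - Hg0 - Y) ≤ c / 2 * SS :=
    mul_le_mul_of_nonneg_left hSS1 (by positivity)
  have hsc3 : -(c : ℝ) ≤ c / 2 * (s c * (a c + b c)) := by nlinarith
  have hgc2 : (c : ℝ) * Hgc ≤ c * |S s c + S a c + S b c| :=
    mul_le_mul_of_nonneg_left vgc (by positivity)
  have hg02 : (c : ℝ) * Hg0 ≤ c * (2 * |S s c + S a c + S b c|) :=
    mul_le_mul_of_nonneg_left vg0 (by positivity)
  have hwc2 : (c : ℝ) * Hwc ≤ c * (|2 * S s c + S a c + S b c| + 1) :=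
    mul_le_mul_of_nonneg_left vwc (by positivity)
  have hwc2' : (c : ℝ) * Hwc' ≤ c * (|2 * S s c + S a c + S b c| + 1) :=
    mul_le_mul_of_nonneg_left vwc' (by positivity)
  have hw12 : (c : ℝ) * Hw1 ≤ c * (|S s c + S a c| + 1) :=
    mul_le_mul_of_nonneg_left vw1 (by positivity)
  have hw12' : (c : ℝ) * Hw1' ≤ c * (|S s c + S b c| + 1) :=
    mul_le_mul_of_nonneg_left vw1' (by positivity)
  have hcl : (c : ℝ) ≤ c * lam := by nlinarith
  have hcc : 0 ≤ (c : ℝ) ^ 2 / lam := by positivity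
  have e5 : 5 * (c : ℝ) ^ 2 / lam = 5 * ((c : ℝ) ^ 2 / lam) := by ring
  have e4 : c / 2 * (- Y + s c * (a c + b c) - (Hwc - Hw1) - (Hwc' - Hw1') + 4 * c / lam) =
      - (c / 2 * Y) + c / 2 * (s c * (a c + b c)) - c / 2 * Hwc + c / 2 * Hw1 - c / 2 * Hwc'
        + c / 2 * Hw1' + 2 * ((c : ℝ) ^ 2 / lam) := by ring
  rw [e4] at hX2
  rw [e5, hYw] at g1'
  nlinarith

end Pool.Agent.Helper4.SCH
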